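import Pool.Agent.H523.ZG.Stm

/-!
# Project ZG (helper523): uniform Riemann approximation of the coefficients
-/

set_option autoImplicit false

namespace Pool.Agent.H675.ZG.K3

open Finset Pool.Agent.H523.ZG

theorem cos_err (u : ℝ) : |Real.cos u - (1 - u ^ 2 / 2)| ≤ 3 * u ^ 4 := by
  have h4 : 0 ≤ u ^ 4 := by positivity
  rcases le_total |u| 1 with h | h
  · refine (Real.cos_bound h).trans ?_
    have h5 : |u| ^ 4 = u ^ 4 := by rw [← abs_pow, abs_of_nonneg h4]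
    rw [h5]
    linarith
  · have h1 : 1 ≤ u ^ 2 := by
      rw [← sq_abs]
      nlinarith
    have h2 := Real.cos_le_one u
    have h3 := Real.neg_one_le_cos u
    have h5 : u ^ 2 ≤ u ^ 4 := by nlinarith
    rw [abs_le]
    constructor <;> linarith

theorem cc_nonneg : 0 ≤ cc := by
  unfold cc
  have := Real.pi_pos
  positivity

theorem cc_le : cc ≤ 4 := by
  unfold cc
  have := Real.pi_lt_d2
  linarith

theorem cc_sq_le : cc ^ 2 ≤ 16 := by
  have h1 := cc_nonneg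
  have h2 := cc_le
  nlinarith

theorem sq_le_one' {x : ℝ} (h1 : -1 ≤ x) (h2 : x ≤ 1) : x ^ 2 ≤ 1 := by nlinarith

theorem Gx_nonneg {x : ℝ} (h1 : -1 ≤ x) (h2 : x ≤ 1) : 0 ≤ Gx x := by
  unfold Gx
  have h := sq_le_one' h1 h2
  exact mul_nonneg (sq_nonneg _) (by linarith)

theorem Gx_le {x : ℝ} (h1 : -1 ≤ x) (h2 : x ≤ 1) : Gx x ≤ 1 := by
  unfold Gx
  have h := sq_le_one' h1 h2
  have h0 : 0 ≤ x ^ 2 := sq_nonneg x
  have h3 : (1 - x ^ 2) ^ 2 ≤ 1 := by nlinarith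
  exact mul_le_one₀ h3 (by linarith) (by linarith)

theorem Gx_poly (x : ℝ) : Gx x = 1 - 5 / 2 * x ^ 2 + 2 * (x ^ 2) ^ 2 - (x ^ 2) ^ 3 / 2 := by
  unfold Gx
  ring

theorem G2_poly (x : ℝ) : G2 x = -5 + 24 * x ^ 2 - 15 * (x ^ 2) ^ 2 := by
  unfold G2
  ring

theorem sq_lip {s a : ℝ} (h1 : -1 ≤ s) (h2 : s ≤ 1) (h3 : -1 ≤ a) (h4 : a ≤ 1) :
    |s ^ 2 - a ^ 2| ≤ 2 * |s - a| := by
  have h : s ^ 2 - a ^ 2 = (s + a) * (s - a) := by ring
  rw [h, abs_mul]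
  refine mul_le_mul_of_nonneg_right ?_ (abs_nonneg _)
  rw [abs_le]
  constructor <;> linarith

theorem Gx_lip {s a : ℝ} (h1 : -1 ≤ s) (h2 : s ≤ 1) (h3 : -1 ≤ a) (h4 : a ≤ 1) :
    |Gx s - Gx a| ≤ 16 * |s - a| := by
  have h := sq_lip h1 h2 h3 h4
  have u1 := sq_le_one' h1 h2
  have b1 := sq_le_one' h3 h4
  have u0 := sq_nonneg s
  have b0 := sq_nonneg a
  rw [Gx_poly, Gx_poly]
  obtain ⟨u, hu⟩ : ∃ u, u = s ^ 2 := ⟨_, rfl⟩
  obtain ⟨b, hb⟩ : ∃ b, b = a ^ 2 := ⟨_, rfl⟩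
  rw [← hu] at h u1 u0 ⊢
  rw [← hb] at h b1 b0 ⊢
  have e : 1 - 5 / 2 * u + 2 * u ^ 2 - u ^ 3 / 2 - (1 - 5 / 2 * b + 2 * b ^ 2 - b ^ 3 / 2) =
      (-(5 / 2) + 2 * (u + b) - (u ^ 2 + u * b + b ^ 2) / 2) * (u - b) := by ring
  rw [e, abs_mul]
  have h5 : |-(5 / 2) + 2 * (u + b) - (u ^ 2 + u * b + b ^ 2) / 2| ≤ 8 := by
    rw [abs_le]
    constructor <;> nlinarith [mul_nonneg u0 b0]
  calc _ ≤ 8 * |u - b| := mul_le_mul_of_nonneg_right h5 (abs_nonneg _)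
    _ ≤ 16 * |s - a| := by linarith

theorem G2_lip {s a : ℝ} (h1 : -1 ≤ s) (h2 : s ≤ 1) (h3 : -1 ≤ a) (h4 : a ≤ 1) :
    |G2 s - G2 a| ≤ 108 * |s - a| := by
  have h := sq_lip h1 h2 h3 h4
  have u1 := sq_le_one' h1 h2
  have b1 := sq_le_one' h3 h4
  have u0 := sq_nonneg s
  have b0 := sq_nonneg a
  rw [G2_poly, G2_poly]
  obtain ⟨u, hu⟩ : ∃ u, u = s ^ 2 := ⟨_, rfl⟩
  obtain ⟨b, hb⟩ : ∃ b, b = a ^ 2 := ⟨_, rfl⟩
  rw [← hu] at h u1 u0 ⊢
  rw [← hb] at h b1 b0 ⊢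
  have e : -5 + 24 * u - 15 * u ^ 2 - (-5 + 24 * b - 15 * b ^ 2) =
      (24 - 15 * (u + b)) * (u - b) := by ring
  rw [e, abs_mul]
  have h5 : |24 - 15 * (u + b)| ≤ 54 := by
    rw [abs_le]
    constructor <;> linarith
  calc _ ≤ 54 * |u - b| := mul_le_mul_of_nonneg_right h5 (abs_nonneg _)
    _ ≤ 108 * |s - a| := by linarith

/-- the second factor of the integrand -/
noncomputable def Ps (y : ℝ) : ℝ := G2 y + cc ^ 2 * Gx y

theorem Ps_lip {s a : ℝ} (h1 : -1 ≤ s) (h2 : s ≤ 1) (h3 : -1 ≤ a) (h4 : a ≤ 1) :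
    |Ps s - Ps a| ≤ 364 * |s - a| := by
  have e : Ps s - Ps a = (G2 s - G2 a) + cc ^ 2 * (Gx s - Gx a) := by
    unfold Ps
    ring
  rw [e]
  refine (abs_add_le _ _).trans ?_
  rw [abs_mul, abs_of_nonneg (sq_nonneg cc)]
  have h5 := G2_lip h1 h2 h3 h4
  have h6 := Gx_lip h1 h2 h3 h4
  have h7 : cc ^ 2 * |Gx s - Gx a| ≤ 16 * (16 * |s - a|) :=
    mul_le_mul cc_sq_le h6 (abs_nonneg _) (by norm_num)
  linarith

theorem Ps_bd {y : ℝ} (h1 : -1 ≤ y) (h2 : y ≤ 1) : |Ps y| ≤ 60 := by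
  unfold Ps
  refine (abs_add_le _ _).trans ?_
  have h3 : |G2 y| ≤ 44 := by
    have u1 := sq_le_one' h1 h2
    have u0 := sq_nonneg y
    rw [G2_poly, abs_le]
    constructor <;> nlinarith
  have h4 : |cc ^ 2 * Gx y| ≤ 16 := by
    rw [abs_mul, abs_of_nonneg (sq_nonneg cc), abs_of_nonneg (Gx_nonneg h1 h2)]
    have := mul_le_mul cc_sq_le (Gx_le h1 h2) (Gx_nonneg h1 h2) (by norm_num)
    linarith
  linarith

/-- the integrand -/
noncomputable def Ph (α x : ℝ) : ℝ := Gx x * Ps (x + α)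

theorem Ph_lip {α s a : ℝ} (h1 : -1 ≤ s) (h2 : s ≤ 1) (h3 : -1 ≤ a) (h4 : a ≤ 1)
    (k1 : -1 ≤ s + α) (k2 : s + α ≤ 1) (k3 : -1 ≤ a + α) (k4 : a + α ≤ 1) :
    |Ph α s - Ph α a| ≤ 1400 * |s - a| := by
  have e : Ph α s - Ph α a = (Gx s - Gx a) * Ps (s + α) + Gx a * (Ps (s + α) - Ps (a + α)) := by
    unfold Ph
    ring
  rw [e]
  refine (abs_add_le _ _).trans ?_
  rw [abs_mul, abs_mul, abs_of_nonneg (Gx_nonneg h3 h4)]
  have h5 := Gx_lip h1 h2 h3 h4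
  have h6 := Ps_bd k1 k2
  have h7 := Ps_lip k1 k2 k3 k4
  rw [add_sub_add_right_eq_sub] at h7
  have h8 : |Gx s - Gx a| * |Ps (s + α)| ≤ 16 * |s - a| * 60 :=
    mul_le_mul h5 h6 (abs_nonneg _) (by positivity)
  have h9 : Gx a * |Ps (s + α) - Ps (a + α)| ≤ 1 * (364 * |s - a|) :=
    mul_le_mul (Gx_le h3 h4) h7 (abs_nonneg _) (by norm_num)
  have := abs_nonneg (s - a)
  linarith

theorem Ph_cont (α : ℝ) : Continuous (Ph α) := by
  unfold Ph Ps Gx G2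
  fun_prop

/-- one interval -/
theorem cell {α t a : ℝ} (ht : 0 < t) (h1 : -1 ≤ a) (h2 : a + t ≤ 1) (k1 : -1 ≤ a + α)
    (k2 : a + t + α ≤ 1) : |t * Ph α a - ∫ x in a..(a + t), Ph α x| ≤ 1400 * t ^ 2 := by
  have hi : IntervalIntegrable (Ph α) MeasureTheory.volume a (a + t) :=
    (Ph_cont α).intervalIntegrable _ _
  have e : t * Ph α a - ∫ x in a..(a + t), Ph α x = ∫ x in a..(a + t), (Ph α a - Ph α x) := by
    rw [intervalIntegral.integral_sub intervalIntegrable_const hi,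
      intervalIntegral.integral_const, smul_eq_mul]
    ring
  rw [e]
  have h := intervalIntegral.norm_integral_le_of_norm_le_const (a := a) (b := a + t)
    (f := fun x => Ph α a - Ph α x) (C := 1400 * t) (by
      intro x hx
      rw [Set.uIoc_of_le (by linarith), Set.mem_Ioc] at hx
      rw [Real.norm_eq_abs]
      refine (Ph_lip h1 (by linarith) (by linarith) (by linarith) k1 (by linarith) (by linarith)
        (by linarith)).trans ?_
      have : |a - x| ≤ t := by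
        rw [abs_le]
        constructor <;> linarith
      linarith)
  rw [Real.norm_eq_abs] at h
  refine h.trans (le_of_eq ?_)
  rw [add_sub_cancel_left, abs_of_pos ht]
  ring

/-! ## The discrete side -/

/-- the second difference -/
noncomputable def hh (d : ℕ) (i : ℤ) : ℝ :=
  (gg d (i + 1) + gg d (i - 1)) / 2 - Real.cos (cc / d) * gg d i

theorem Gx_one : Gx 1 = 0 := by
  unfold Gx
  norm_num

theorem Gx_neg_one : Gx (-1) = 0 := by
  unfold Gx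
  norm_num

theorem gg_big {d : ℕ} {j : ℤ} (hd : 1 ≤ d) (h : (d : ℤ) ≤ j) : gg d j = 0 := by
  unfold gg
  split_ifs with h1
  · have h2 : j = d := le_antisymm ((le_abs_self j).trans h1) h
    have hd0 : (d : ℝ) ≠ 0 := by
      have : 0 < d := hd
      positivity
    rw [h2, Int.cast_natCast, div_self hd0, Gx_one]
  · rfl

theorem gg_in {d : ℕ} {j : ℤ} (h : |j| ≤ (d : ℤ)) : gg d j = Gx ((j : ℝ) / d) := by
  unfold gg
  rw [if_pos h]

theorem hh_big {d : ℕ} (hd : 1 ≤ d) {i : ℤ} (h : (d : ℤ) < i) : hh d i = 0 := by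
  unfold hh
  rw [gg_big hd (by omega : (d : ℤ) ≤ i + 1), gg_big hd (by omega : (d : ℤ) ≤ i - 1),
    gg_big hd h.le]
  ring

theorem hh_end {d : ℕ} (hd : 1 ≤ d) : |hh d (d : ℤ)| ≤ 2 * (1 / (d : ℝ)) ^ 2 := by
  have hd0 : (0 : ℝ) < d := by exact_mod_cast hd
  have hd1 : (1 : ℝ) ≤ d := by exact_mod_cast hd
  unfold hh
  rw [gg_big hd (by omega : (d : ℤ) ≤ (d : ℤ) + 1), gg_big hd (le_refl (d : ℤ)),
    gg_in (by rw [abs_le]; omega : |(d : ℤ) - 1| ≤ (d : ℤ))]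
  obtain ⟨t, ht⟩ : ∃ t : ℝ, t = 1 / (d : ℝ) := ⟨_, rfl⟩
  have ht0 : 0 < t := by rw [ht]; positivity
  have ht1 : t ≤ 1 := by rw [ht, div_le_one hd0]; exact hd1
  have e : (((d : ℤ) - 1 : ℤ) : ℝ) / d = 1 - t := by
    push_cast
    rw [ht, sub_div, div_self hd0.ne']
  rw [e, ← ht]
  have h1 : 0 ≤ Gx (1 - t) := Gx_nonneg (by linarith) (by linarith)
  have h2 : Gx (1 - t) ≤ 4 * t ^ 2 := by
    unfold Gx
    have h3 : (1 - (1 - t) ^ 2) ^ 2 = (2 - t) ^ 2 * t ^ 2 := by ring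
    rw [h3]
    have h4 : (2 - t) ^ 2 ≤ 4 := by nlinarith
    have h5 : 1 - (1 - t) ^ 2 / 2 ≤ 1 := by nlinarith [sq_nonneg (1 - t)]
    have h6 : 0 ≤ 1 - (1 - t) ^ 2 / 2 := by nlinarith
    calc (2 - t) ^ 2 * t ^ 2 * (1 - (1 - t) ^ 2 / 2) ≤ 4 * t ^ 2 * 1 := by
          refine mul_le_mul (mul_le_mul_of_nonneg_right h4 (sq_nonneg t)) h5 h6 (by positivity)
      _ = 4 * t ^ 2 := mul_one _
  rw [abs_le]
  constructor <;> linarith

theorem hh_main {d : ℕ} (hd : 1 ≤ d) {i : ℤ} (h1 : -(d : ℤ) < i) (h2 : i < d) :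
    |hh d i - (1 / (d : ℝ)) ^ 2 / 2 * Ps ((i : ℝ) / d)| ≤ 800 * (1 / (d : ℝ)) ^ 4 := by
  have hd0 : (0 : ℝ) < d := by exact_mod_cast hd
  have hd1 : (1 : ℝ) ≤ d := by exact_mod_cast hd
  unfold hh
  rw [gg_in (by rw [abs_le]; omega : |i + 1| ≤ (d : ℤ)),
    gg_in (by rw [abs_le]; omega : |i - 1| ≤ (d : ℤ)), gg_in (by rw [abs_le]; omega)]
  obtain ⟨t, ht⟩ : ∃ t : ℝ, t = 1 / (d : ℝ) := ⟨_, rfl⟩
  obtain ⟨y, hy⟩ : ∃ y : ℝ, y = (i : ℝ) / (d : ℝ) := ⟨_, rfl⟩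
  have ht0 : 0 < t := by rw [ht]; positivity
  have ht1 : t ≤ 1 := by rw [ht, div_le_one hd0]; exact hd1
  have e1 : ((i + 1 : ℤ) : ℝ) / d = y + t := by
    push_cast
    rw [ht, hy, add_div]
  have e2 : ((i - 1 : ℤ) : ℝ) / d = y - t := by
    push_cast
    rw [ht, hy, sub_div]
  have e3 : cc / d = cc * t := by
    rw [ht, mul_one_div]
  have y1 : -1 ≤ y := by
    rw [hy, le_div_iff₀ hd0]
    have : (-(d : ℤ) : ℝ) ≤ (i : ℝ) := by exact_mod_cast h1.le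
    push_cast at this
    linarith
  have y2 : y ≤ 1 := by
    rw [hy, div_le_one hd0]
    exact_mod_cast h2.le
  rw [e1, e2, e3, ← ht, ← hy]
  obtain ⟨r, hr⟩ : ∃ r : ℝ, r = Real.cos (cc * t) - (1 - (cc * t) ^ 2 / 2) := ⟨_, rfl⟩
  have hr1 : |r| ≤ 768 * t ^ 4 := by
    rw [hr]
    refine (cos_err _).trans ?_
    have h4 : cc ^ 4 ≤ 256 := by
      have := pow_le_pow_left₀ cc_nonneg cc_le 4
      norm_num at this
      exact this
    have h5 : (cc * t) ^ 4 = cc ^ 4 * t ^ 4 := by ring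
    rw [h5]
    have h6 : 0 ≤ t ^ 4 := by positivity
    nlinarith
  have hcos : Real.cos (cc * t) = 1 - (cc * t) ^ 2 / 2 + r := by
    rw [hr]
    ring
  have e4 : (Gx (y + t) + Gx (y - t)) / 2 - Real.cos (cc * t) * Gx y - t ^ 2 / 2 * Ps y =
      t ^ 4 * (2 - 15 / 2 * y ^ 2) - t ^ 6 / 2 - r * Gx y := by
    rw [hcos]
    unfold Ps Gx G2
    ring
  rw [e4]
  have h7 : |r * Gx y| ≤ 768 * t ^ 4 := by
    rw [abs_mul, abs_of_nonneg (Gx_nonneg y1 y2)]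
    exact (mul_le_of_le_one_right (abs_nonneg _) (Gx_le y1 y2)).trans hr1
  have h8 := sq_le_one' y1 y2
  have h9 := sq_nonneg y
  have h10 : t ^ 6 ≤ t ^ 4 := pow_le_pow_of_le_one ht0.le ht1 (by norm_num)
  have h11 : 0 ≤ t ^ 6 := by positivity
  have h12 : 0 ≤ t ^ 4 := by positivity
  have h13 := abs_le.1 h7
  rw [abs_le]
  constructor
  · nlinarith [mul_nonneg h12 (sub_nonneg.2 h8)]
  · nlinarith [mul_nonneg h12 h9]

/-- one term -/
theorem term_est {d : ℕ} (hd : 1 ≤ d) (m k : ℕ) (hk : k + m < 2 * d) :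
    |gg d (-(d : ℤ) + k) * hh d (-(d : ℤ) + k + m) -
      (1 / (d : ℝ)) ^ 2 / 2 * Ph ((m : ℝ) / d) (-1 + (k : ℝ) / d)| ≤
      800 * (1 / (d : ℝ)) ^ 4 := by
  have hd0 : (0 : ℝ) < d := by exact_mod_cast hd
  have e1 : ((-(d : ℤ) + k : ℤ) : ℝ) / d = -1 + (k : ℝ) / d := by
    push_cast
    rw [add_div, neg_div, div_self hd0.ne']
  have e2 : ((-(d : ℤ) + k + m : ℤ) : ℝ) / d = -1 + (k : ℝ) / d + (m : ℝ) / d := by
    push_cast
    rw [add_div, add_div, neg_div, div_self hd0.ne']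
  have g1 : gg d (-(d : ℤ) + k) = Gx (-1 + (k : ℝ) / d) := by
    rw [gg_in (by rw [abs_le]; omega), e1]
  rw [g1]
  unfold Ph
  rcases Nat.eq_zero_or_pos (k + m) with h0 | h0
  · have hk0 : k = 0 := by omega
    rw [hk0, Nat.cast_zero, zero_div, add_zero, Gx_neg_one, zero_mul, zero_mul, mul_zero, sub_zero,
      abs_zero]
    positivity
  · have h := hh_main hd (i := -(d : ℤ) + k + m) (by omega) (by omega)
    rw [e2] at h
    have x1 : -1 ≤ -1 + (k : ℝ) / d := by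
      have : 0 ≤ (k : ℝ) / d := by positivity
      linarith
    have x2 : -1 + (k : ℝ) / d ≤ 1 := by
      have h3 : (k : ℝ) / d ≤ 2 := by
        rw [div_le_iff₀ hd0]
        have : k ≤ 2 * d := by omega
        exact_mod_cast this
      linarith
    have e3 : Gx (-1 + (k : ℝ) / d) * hh d (-(d : ℤ) + k + m) -
        (1 / (d : ℝ)) ^ 2 / 2 * (Gx (-1 + (k : ℝ) / d) * Ps (-1 + (k : ℝ) / d + (m : ℝ) / d)) =
        Gx (-1 + (k : ℝ) / d) * (hh d (-(d : ℤ) + k + m) -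
          (1 / (d : ℝ)) ^ 2 / 2 * Ps (-1 + (k : ℝ) / d + (m : ℝ) / d)) := by ring
    rw [e3, abs_mul, abs_of_nonneg (Gx_nonneg x1 x2)]
    exact (mul_le_of_le_one_left (abs_nonneg _) (Gx_le x1 x2)).trans h

theorem aa_eq {d : ℕ} (m : ℕ) : aa d m = ∑ k ∈ range (2 * d + 1),
    gg d (-(d : ℤ) + k) * hh d (-(d : ℤ) + k + m) := by
  unfold aa
  refine (Finset.sum_nbij' (fun k : ℕ => -(d : ℤ) + k) (fun j : ℤ => (j + d).toNat) ?_ ?_ ?_ ?_
    ?_).symm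
  · intro k hk
    rw [mem_range] at hk
    rw [mem_Icc]
    omega
  · intro j hj
    rw [mem_Icc] at hj
    rw [mem_range]
    omega
  · intro k hk
    omega
  · intro j hj
    rw [mem_Icc] at hj
    omega
  · intro k _
    rfl

theorem main : S_K3 := by
  refine ⟨3002, fun d hd m hm => ?_⟩
  have hd0 : (0 : ℝ) < d := by exact_mod_cast hd
  have hd1 : (1 : ℝ) ≤ d := by exact_mod_cast hd
  obtain ⟨t, ht⟩ : ∃ t : ℝ, t = 1 / (d : ℝ) := ⟨_, rfl⟩
  have ht0 : 0 < t := by rw [ht]; positivity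
  have ht1 : t ≤ 1 := by rw [ht, div_le_one hd0]; exact hd1
  have hdt : (d : ℝ) * t = 1 := by rw [ht, mul_one_div, div_self hd0.ne']
  obtain ⟨T, hT⟩ : ∃ T : ℕ → ℝ, T = fun k : ℕ =>
    gg d (-(d : ℤ) + k) * hh d (-(d : ℤ) + k + m) := ⟨_, rfl⟩
  obtain ⟨n, hn⟩ : ∃ n, n = 2 * d - m := ⟨_, rfl⟩
  have hn2 : 2 * d + 1 = n + (m + 1) := by omega
  have s1 : aa d m = ∑ k ∈ range n, T k + T n := by
    rw [aa_eq, hn2, sum_range_add]
    have e1 : ∀ k : ℕ, gg d (-(d : ℤ) + k) * hh d (-(d : ℤ) + k + m) = T k := by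
      intro k
      rw [hT]
    simp only [e1]
    congr 1
    rw [sum_range_succ']
    have e2 : ∑ k ∈ range m, T (n + (k + 1)) = 0 := by
      refine sum_eq_zero fun k _ => ?_
      rw [hT]
      simp only
      rw [hh_big hd, mul_zero]
      push_cast
      omega
    rw [e2, zero_add, add_zero]
  have s2 : |T n| ≤ 2 * t ^ 2 := by
    rw [hT]
    simp only
    have e1 : -(d : ℤ) + n + m = d := by omega
    rw [e1, abs_mul, ht]
    have h1 : |gg d (-(d : ℤ) + n)| ≤ 1 := by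
      rw [gg_in (by rw [abs_le]; omega)]
      have x1 : -1 ≤ ((-(d : ℤ) + n : ℤ) : ℝ) / d := by
        rw [le_div_iff₀ hd0]
        push_cast
        have : (0 : ℝ) ≤ n := Nat.cast_nonneg n
        linarith
      have x2 : ((-(d : ℤ) + n : ℤ) : ℝ) / d ≤ 1 := by
        rw [div_le_one hd0]
        push_cast
        have : (n : ℝ) ≤ 2 * d := by
          have h5 : n ≤ 2 * d := by omega
          exact_mod_cast h5
        linarith
      rw [abs_of_nonneg (Gx_nonneg x1 x2)]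
      exact Gx_le x1 x2
    calc |gg d (-(d : ℤ) + n)| * |hh d (d : ℤ)| ≤ 1 * (2 * (1 / (d : ℝ)) ^ 2) :=
          mul_le_mul h1 (hh_end hd) (abs_nonneg _) zero_le_one
      _ = _ := one_mul _
  -- the integral
  obtain ⟨a, ha⟩ : ∃ a : ℕ → ℝ, a = fun k : ℕ => -1 + (k : ℝ) / d := ⟨_, rfl⟩
  have hstep : ∀ k, a (k + 1) = a k + t := by
    intro k
    rw [ha, ht]
    push_cast
    rw [add_div]
    ring
  have s3 : ∫ x in (-1 : ℝ)..(1 - (m : ℝ) / d), Gx x * (G2 (x + (m : ℝ) / d) +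
      cc ^ 2 * Gx (x + (m : ℝ) / d)) =
      ∑ k ∈ range n, ∫ x in (a k)..(a (k + 1)), Ph ((m : ℝ) / d) x := by
    rw [intervalIntegral.sum_integral_adjacent_intervals fun k _ =>
      (Ph_cont _).intervalIntegrable _ _]
    have a0 : a 0 = -1 := by
      rw [ha]
      simp
    have an : a n = 1 - (m : ℝ) / d := by
      rw [ha, hn]
      simp only
      rw [Nat.cast_sub hm]
      push_cast
      field_simp
      ring
    rw [a0, an]
    rfl
  have s4 : ∀ k ∈ range n, |T k - t / 2 * ∫ x in (a k)..(a (k + 1)), Ph ((m : ℝ) / d) x| ≤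
      1500 * t ^ 3 := by
    intro k hk
    rw [mem_range] at hk
    have h1 := term_est hd m k (by omega)
    have hak : a k = -1 + (k : ℝ) / d := by rw [ha]
    rw [← ht, ← hak] at h1
    have hTk : gg d (-(d : ℤ) + k) * hh d (-(d : ℤ) + k + m) = T k := by rw [hT]
    rw [hTk] at h1
    have hk2 : ((k : ℝ) + m) + 1 ≤ 2 * d := by
      have h5 : k + m + 1 ≤ 2 * d := by omega
      exact_mod_cast h5
    have hm0 : (0 : ℝ) ≤ (m : ℝ) / d := by positivity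
    have hk0 : (0 : ℝ) ≤ (k : ℝ) / d := by positivity
    have hkm : (k : ℝ) / d + (m : ℝ) / d + t ≤ 2 := by
      rw [ht, ← add_div, ← add_div, div_le_iff₀ hd0]
      exact hk2
    have h2 := cell (α := (m : ℝ) / d) (t := t) (a := a k) ht0 (by rw [hak]; linarith)
      (by rw [hak]; linarith) (by rw [hak]; linarith) (by rw [hak]; linarith)
    rw [hstep]
    have e : T k - t / 2 * ∫ x in (a k)..(a k + t), Ph ((m : ℝ) / d) x =
        (T k - t ^ 2 / 2 * Ph ((m : ℝ) / d) (a k)) +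
        t / 2 * (t * Ph ((m : ℝ) / d) (a k) - ∫ x in (a k)..(a k + t), Ph ((m : ℝ) / d) x) := by
      ring
    rw [e]
    refine (abs_add_le _ _).trans ?_
    rw [abs_mul, abs_of_pos (by positivity : 0 < t / 2)]
    have h3 : t / 2 * |t * Ph ((m : ℝ) / d) (a k) -
        ∫ x in (a k)..(a k + t), Ph ((m : ℝ) / d) x| ≤ t / 2 * (1400 * t ^ 2) :=
      mul_le_mul_of_nonneg_left h2 (by positivity)
    have h4 : t ^ 4 ≤ t ^ 3 := pow_le_pow_of_le_one ht0.le ht1 (by norm_num)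
    nlinarith
  have s5 : |∑ k ∈ range n, T k - t / 2 * ∑ k ∈ range n, ∫ x in (a k)..(a (k + 1)),
      Ph ((m : ℝ) / d) x| ≤ 3000 * t ^ 2 := by
    rw [mul_sum, ← sum_sub_distrib]
    refine (abs_sum_le_sum_abs _ _).trans ((sum_le_sum s4).trans ?_)
    rw [sum_const, card_range, nsmul_eq_mul]
    have h1 : (n : ℝ) ≤ 2 * d := by
      have h5 : n ≤ 2 * d := by omega
      exact_mod_cast h5
    calc (n : ℝ) * (1500 * t ^ 3) ≤ (2 * d) * (1500 * t ^ 3) :=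
          mul_le_mul_of_nonneg_right h1 (by positivity)
      _ = 3000 * t ^ 2 * (d * t) := by ring
      _ = 3000 * t ^ 2 := by rw [hdt, mul_one]
  rw [s1, s3]
  have e1 : 1 / (2 * (d : ℝ)) = t / 2 := by
    rw [ht]
    field_simp
  have e2 : 3002 / (d : ℝ) ^ 2 = 3002 * t ^ 2 := by
    rw [ht]
    field_simp
  rw [e1, e2]
  have e3 : ∑ k ∈ range n, T k + T n - t / 2 * ∑ k ∈ range n, ∫ x in (a k)..(a (k + 1)),
      Ph ((m : ℝ) / d) x = (∑ k ∈ range n, T k - t / 2 * ∑ k ∈ range n,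
        ∫ x in (a k)..(a (k + 1)), Ph ((m : ℝ) / d) x) + T n := by ring
  rw [e3]
  refine (abs_add_le _ _).trans ?_
  linarith

end Pool.Agent.H675.ZG.K3
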